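import Pool.Agent.V11281.Lad.Bound

/-!
# A linearly orderable topological group with an `ω^ω`-base and without suitable set

There is (in ZFC) an abelian group `G` with a linear order such that the order topology is a group
topology with an `ω^ω`-base and `G` has no suitable set. In particular `G` is a generalized
orderable topological group. The group consists of the functions `𝔟 → ℤ` generated by the unit
vectors and by the indicator functions of ladders, with the lexicographic order.
-/

set_option autoImplicit false

open Set Topology

namespace Pool.Agent.Results.MP_eb7acf_gt.NoSuitableSetOrdered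

open Pool.Agent.V11281.Lad

theorem result : ∃ (G : Type) (_ : AddCommGroup G) (_ : LinearOrder G) (_ : TopologicalSpace G),
    IsTopologicalAddGroup G ∧ T2Space G ∧ OrderTopology G ∧ IsOrderedAddMonoid G ∧
    (∀ x : G, ∃ U : (ℕ → ℕ) → Set G, (∀ f g, f ≤ g → U g ⊆ U f) ∧
      (∀ f, U f ∈ 𝓝 x) ∧ ∀ V ∈ 𝓝 x, ∃ f, U f ⊆ V) ∧
    ¬ ∃ S : Set G, DiscreteTopology S ∧ IsClosed (S ∪ {0}) ∧
      Dense (AddSubgroup.closure S : Set G) :=
  ⟨LG BW, inferInstance, inferInstance, inferInstance, inferInstance, inferInstance,
    inferInstance, inferInstance, exists_base,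
    fun ⟨S, hd, hS, hdense⟩ => no_suitable S hS hd hdense⟩

end Pool.Agent.Results.MP_eb7acf_gt.NoSuitableSetOrdered
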